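import Mathlib

set_option autoImplicit false
open Filter Topology MeasureTheory

namespace Pool.Agent.Results.MP_f4a5b0_an.SpFour

/-- the group `Sp(4,ℝ)`, with the topology of matrices -/
abbrev G : Type := Matrix.symplecticGroup (Fin 2) ℝ

/-- the underlying `4 × 4` matrix -/
def mat (g : G) : Matrix (Fin 2 ⊕ Fin 2) (Fin 2 ⊕ Fin 2) ℝ := g.1

lemma mat_mul (g h : G) : mat (g * h) = mat g * mat h := rfl

lemma mat_one : mat (1 : G) = 1 := rfl

lemma mat_inv (g : G) : mat g⁻¹ = (-Matrix.J (Fin 2) ℝ) * (mat g).transpose * Matrix.J (Fin 2) ℝ := rfl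

lemma G_ext {g h : G} (H : mat g = mat h) : g = h := Subtype.ext H

/-- `Sp(4,ℤ)`: the symplectic matrices all of whose entries are integers -/
def Gam : Subgroup G where
  carrier := {g | ∃ A : Matrix (Fin 2 ⊕ Fin 2) (Fin 2 ⊕ Fin 2) ℤ, mat g = A.map (fun n : ℤ => (n : ℝ))}
  mul_mem' := by
    rintro g h ⟨A, hA⟩ ⟨B, hB⟩
    refine ⟨A * B, ?_⟩
    rw [mat_mul, hA, hB]
    exact (Matrix.map_mul (f := Int.castRingHom ℝ)).symm
  one_mem' := ⟨1, by
    rw [mat_one]
    exact (Matrix.map_one (Int.castRingHom ℝ) (map_zero _) (map_one _)).symm⟩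
  inv_mem' := by
    rintro g ⟨A, hA⟩
    refine ⟨(-Matrix.J (Fin 2) ℤ) * A.transpose * Matrix.J (Fin 2) ℤ, ?_⟩
    rw [mat_inv, hA]
    have h1 : (Matrix.J (Fin 2) ℝ) = (Matrix.J (Fin 2) ℤ).map (Int.castRingHom ℝ) :=
      (Matrix.map_J (Fin 2) (Int.castRingHom ℝ)).symm
    have h2 : (A.map (fun n : ℤ => (n : ℝ))) = A.map (Int.castRingHom ℝ) := rfl
    have h3 : (-Matrix.J (Fin 2) ℝ) = (-Matrix.J (Fin 2) ℤ).map (Int.castRingHom ℝ) := by
      rw [h1]; ext i j; simp
    rw [h3, h1, h2, ← Matrix.transpose_map, ← Matrix.map_mul, ← Matrix.map_mul]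
    rfl

/-- the space `Sp(4,ℝ)/Sp(4,ℤ)` with the quotient topology -/
abbrev X : Type := G ⧸ Gam

/-- `exp` of the diagonal matrix `diag(y₁, y₂, -y₁, -y₂)`, an element of `Sp(4,ℝ)` -/
noncomputable def expA (y : ℝ × ℝ) : G :=
  ⟨Matrix.diagonal (Sum.elim ![Real.exp y.1, Real.exp y.2] ![Real.exp (-y.1), Real.exp (-y.2)]), by
    rw [← Matrix.fromBlocks_diagonal, SymplecticGroup.fromBlocks_mem_iff]
    refine ⟨by simp, by simp, ?_⟩
    rw [Matrix.diagonal_transpose, Matrix.diagonal_mul_diagonal, ← Matrix.diagonal_one]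
    simp only [Matrix.mul_zero, sub_zero]
    congr 1
    ext i
    fin_cases i <;> simp [← Real.exp_add]⟩

lemma mat_expA (y : ℝ × ℝ) : mat (expA y) =
    Matrix.diagonal (Sum.elim ![Real.exp y.1, Real.exp y.2] ![Real.exp (-y.1), Real.exp (-y.2)]) := rfl

lemma expA_add (y z : ℝ × ℝ) : expA (y + z) = expA y * expA z := by
  apply G_ext
  rw [mat_mul, mat_expA, mat_expA, mat_expA, Matrix.diagonal_mul_diagonal]
  congr 1
  ext i
  rcases i with i | i <;> fin_cases i <;> simp [Real.exp_add] <;> ring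

lemma expA_zero : expA 0 = 1 := by
  apply G_ext
  rw [mat_expA, mat_one]
  ext i j
  rcases i with i | i <;> rcases j with j | j <;> fin_cases i <;> fin_cases j <;>
    simp [Matrix.diagonal]

lemma expA_neg (y : ℝ × ℝ) : expA (-y) = (expA y)⁻¹ := by
  rw [eq_inv_iff_mul_eq_one, ← expA_add, neg_add_cancel, expA_zero]

/-- the one-parameter subgroup `{exp(tY) : t ∈ ℝ}` -/
noncomputable def oneParam (Y : ℝ × ℝ) : Subgroup G where
  carrier := Set.range (fun t : ℝ => expA (t • Y))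
  mul_mem' := by
    rintro _ _ ⟨s, rfl⟩ ⟨t, rfl⟩
    exact ⟨s + t, by simp only [add_smul, expA_add]⟩
  one_mem' := ⟨0, by simp only [zero_smul, expA_zero]⟩
  inv_mem' := by
    rintro _ ⟨s, rfl⟩
    exact ⟨-s, by simp only [neg_smul, expA_neg]⟩

/-- the orbit `D x` is divergent: preimages of compact sets under the orbit map are compact -/
def Divergent (D : Subgroup G) (x : X) : Prop :=
  ∀ K : Set X, IsCompact K → IsCompact {d : G | d ∈ D ∧ d • x ∈ K}

/-- embedding of pairs of `2 × 2` matrices -/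
def embM (A B : Matrix (Fin 2) (Fin 2) ℝ) : Matrix (Fin 2 ⊕ Fin 2) (Fin 2 ⊕ Fin 2) ℝ :=
  Matrix.fromBlocks (Matrix.diagonal ![A 0 0, B 0 0]) (Matrix.diagonal ![A 0 1, B 0 1])
    (Matrix.diagonal ![A 1 0, B 1 0]) (Matrix.diagonal ![A 1 1, B 1 1])

lemma embM_mul (A B A' B' : Matrix (Fin 2) (Fin 2) ℝ) :
    embM A B * embM A' B' = embM (A * A') (B * B') := by
  unfold embM
  rw [Matrix.fromBlocks_multiply]
  simp only [Matrix.diagonal_mul_diagonal, Matrix.diagonal_add]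
  congr 1 <;> congr 1 <;> ext i <;> fin_cases i <;> simp [Matrix.mul_apply, Fin.sum_univ_two]

lemma embM_mem {A B : Matrix (Fin 2) (Fin 2) ℝ} (hA : A 0 0 * A 1 1 - A 0 1 * A 1 0 = 1)
    (hB : B 0 0 * B 1 1 - B 0 1 * B 1 0 = 1) : embM A B ∈ Matrix.symplecticGroup (Fin 2) ℝ := by
  unfold embM
  rw [SymplecticGroup.fromBlocks_mem_iff]
  simp only [Matrix.diagonal_transpose, Matrix.diagonal_mul_diagonal, Matrix.diagonal_sub]
  refine ⟨?_, ?_, ?_⟩
  · congr 1; ext i; fin_cases i <;> simp <;> ring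
  · congr 1; ext i; fin_cases i <;> simp <;> ring
  · rw [← Matrix.diagonal_one]
    congr 1; ext i; fin_cases i <;> simp <;> linarith

/-- denominators -/
def qq : ℕ → ℤ
  | 0 => 1
  | 1 => 9
  | (n+2) => 9^(n+2) * qq (n+1) + qq n

/-- numerators -/
def pp : ℕ → ℤ
  | 0 => 0
  | 1 => 1
  | (n+2) => 9^(n+2) * pp (n+1) + pp n

lemma qq_pos : ∀ n, 0 < qq n ∧ 0 < qq (n+1) := by
  intro n
  induction n with
  | zero => constructor <;> norm_num [qq]
  | succ n ih =>
    refine ⟨ih.2, ?_⟩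
    show 0 < 9^(n+2) * qq (n+1) + qq n
    have := ih.1
    have := ih.2
    positivity

lemma qq_grow (n : ℕ) : 9^(n+1) * qq n ≤ qq (n+1) := by
  cases n with
  | zero => norm_num [qq]
  | succ n =>
    show 9^(n+1+1) * qq (n+1) ≤ 9^(n+2) * qq (n+1) + qq n
    have := (qq_pos n).1
    linarith

lemma det_pq (n : ℕ) : pp (n+1) * qq n - pp n * qq (n+1) = (-1)^n := by
  induction n with
  | zero => norm_num [pp, qq]
  | succ n ih =>
    show (9^(n+2) * pp (n+1) + pp n) * qq (n+1) - pp (n+1) * (9^(n+2) * qq (n+1) + qq n) = (-1)^(n+1)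
    rw [pow_succ (-1 : ℤ), ← ih]; ring

lemma qq_ge (n : ℕ) : 3^(n^2) ≤ qq n := by
  induction n with
  | zero => norm_num [qq]
  | succ n ih =>
    refine le_trans ?_ (qq_grow n)
    calc (3:ℤ)^((n+1)^2) ≤ 3^(2*(n+1) + n^2) := pow_le_pow_right₀ (by norm_num) (by ring_nf; omega)
      _ = 9^(n+1) * 3^(n^2) := by rw [pow_add, pow_mul]; norm_num
      _ ≤ 9^(n+1) * qq n := by
        apply mul_le_mul_of_nonneg_left ih (by positivity)

/-- real versions -/
noncomputable def Q (n : ℕ) : ℝ := qq n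
noncomputable def Pn (n : ℕ) : ℝ := pp n

lemma Q_pos (n : ℕ) : 0 < Q n := by
  unfold Q; exact_mod_cast (qq_pos n).1

lemma Q_ge_nine (n : ℕ) : 9 * Q n ≤ Q (n+1) := by
  have h := qq_grow n
  have h1 : 9 * qq n ≤ 9^(n+1) * qq n := by
    have : (9:ℤ)^1 ≤ 9^(n+1) := pow_le_pow_right₀ (by norm_num) (by omega)
    have h2 := (qq_pos n).1
    nlinarith
  unfold Q
  exact_mod_cast h1.trans h

lemma Q_mono {m n : ℕ} (h : m ≤ n) : Q m ≤ Q n := by
  induction n, h using Nat.le_induction with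
  | base => exact le_rfl
  | succ n _ ih => have := Q_ge_nine n; have := Q_pos n; linarith

lemma Q_ge_one (n : ℕ) : 1 ≤ Q n := by
  have := Q_mono (Nat.zero_le n)
  have h0 : Q 0 = 1 := by norm_num [Q, qq]
  linarith

lemma Q_ge (n : ℕ) : (3:ℝ)^(n^2) ≤ Q n := by
  have := qq_ge n
  unfold Q
  exact_mod_cast this

lemma detR (n : ℕ) : Pn (n+1) * Q n - Pn n * Q (n+1) = (-1)^n := by
  have := det_pq n
  unfold Q Pn
  exact_mod_cast this

/-- existence of the badly behaved number -/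
lemma exists_theta : ∃ θ : ℝ, ∀ n, |Pn n - θ * Q n| ≤ 2 / Q (n+1) := by
  set r : ℕ → ℝ := fun n => Pn n / Q n with hr
  set d : ℕ → ℝ := fun n => 2 / (Q n * Q (n+1)) with hd
  have hstep : ∀ n, |r (n+1) - r n| + d (n+1) ≤ d n := by
    intro n
    have h1 := Q_pos n
    have h2 := Q_pos (n+1)
    have h3 := Q_pos (n+1+1)
    have e1 : r (n+1) - r n = (-1)^n / (Q n * Q (n+1)) := by
      rw [hr]
      simp only
      rw [div_sub_div _ _ h2.ne' h1.ne', ← detR n]
      congr 1 <;> ring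
    rw [e1, abs_div, abs_pow, abs_neg, abs_one, one_pow, abs_of_pos (by positivity)]
    simp only [hd]
    have h4 := Q_ge_nine n
    have h5 := Q_ge_nine (n+1)
    have h6 : Q n * Q (n+1) * 2 ≤ Q (n+1) * Q (n+1+1) := by nlinarith
    have h7 : 2 / (Q (n+1) * Q (n+1+1)) ≤ 1 / (Q n * Q (n+1)) := by
      rw [div_le_div_iff₀ (by positivity) (by positivity)]
      linarith
    have h8 : 2 / (Q n * Q (n+1)) = 1 / (Q n * Q (n+1)) + 1 / (Q n * Q (n+1)) := by ring
    linarith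
  have hlo : Monotone (fun n => r n - d n) := by
    apply monotone_nat_of_le_succ
    intro n
    have h1 := hstep n
    have h2 := neg_abs_le (r (n+1) - r n)
    linarith
  have hhi : Antitone (fun n => r n + d n) := by
    apply antitone_nat_of_succ_le
    intro n
    have h1 := hstep n
    have h2 := le_abs_self (r (n+1) - r n)
    linarith
  have hle : (fun n => r n - d n) ≤ (fun n => r n + d n) := by
    intro n
    have : 0 < d n := by
      have h1 := Q_pos n
      have h2 := Q_pos (n+1)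
      simp only [hd]; positivity
    simp only
    linarith
  have hmem := hlo.ciSup_mem_iInter_Icc_of_antitone hhi hle
  refine ⟨⨆ n, (r n - d n), fun n => ?_⟩
  rw [Set.mem_iInter] at hmem
  obtain ⟨h1, h2⟩ := hmem n
  set θ := ⨆ n, (r n - d n)
  have hq := Q_pos n
  have hq' := Q_pos (n+1)
  have e1 : Pn n - θ * Q n = (r n - θ) * Q n := by
    simp only [hr]; field_simp
  rw [e1, abs_mul, abs_of_pos hq]
  have e2 : |r n - θ| ≤ d n := by rw [abs_le]; constructor <;> linarith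
  calc |r n - θ| * Q n ≤ d n * Q n := mul_le_mul_of_nonneg_right e2 hq.le
    _ = 2 / Q (n+1) := by simp only [hd]; field_simp

noncomputable def th : ℝ := Classical.choose exists_theta

lemma th_spec (n : ℕ) : |Pn n - th * Q n| ≤ 2 / Q (n+1) := Classical.choose_spec exists_theta n

lemma abs_th : |th| ≤ 1 := by
  have h := th_spec 0
  have h1 : Pn 0 = 0 := by norm_num [Pn, pp]
  have h2 : Q 0 = 1 := by norm_num [Q, qq]
  have h3 : Q (0+1) = 9 := by norm_num [Q, qq]
  rw [h1, h2, h3, zero_sub, mul_one, abs_neg] at h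
  linarith [show (2:ℝ)/9 ≤ 1 by norm_num]

/-- golden data -/
noncomputable def s5 : ℝ := Real.sqrt 5
lemma s5_sq : s5 * s5 = 5 := Real.mul_self_sqrt (by norm_num)
lemma s5_pos : 0 < s5 := Real.sqrt_pos.mpr (by norm_num)
lemma s5_lt : s5 < 3 := by
  have := s5_sq; have := s5_pos; nlinarith
lemma s5_gt : 2 < s5 := by
  have := s5_sq; have := s5_pos; nlinarith

noncomputable def lam : ℝ := (3 + s5)/2
lemma lam_pos : 0 < lam := by unfold lam; have := s5_pos; positivity
lemma lam_le : lam ≤ 3 := by unfold lam; have := s5_lt; linarith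
lemma lam_gt : 1 < lam := by unfold lam; have := s5_pos; linarith
noncomputable def ell : ℝ := Real.log lam
lemma ell_pos : 0 < ell := Real.log_pos lam_gt
lemma exp_ell : Real.exp ell = lam := Real.exp_log lam_pos
lemma exp_neg_ell : Real.exp (-ell) = (3 - s5)/2 := by
  rw [Real.exp_neg, exp_ell]
  have h := s5_sq
  have h2 := lam_pos
  rw [inv_eq_one_div, div_eq_div_iff h2.ne' (by norm_num)]
  unfold lam; nlinarith

noncomputable def A1 : Matrix (Fin 2) (Fin 2) ℝ := !![(1+s5)/2, 1; (1-s5)/2/s5, 1/s5]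
noncomputable def B1 : Matrix (Fin 2) (Fin 2) ℝ := !![1, -th; 0, 1]

/-- the base point -/
noncomputable def g0 : G := ⟨embM A1 B1, embM_mem (by
    have h := s5_pos.ne'
    simp [A1]; field_simp; ring) (by simp [B1])⟩

lemma mat_g0 : mat g0 = embM A1 B1 := rfl

lemma mat_expA' (y : ℝ × ℝ) : mat (expA y) =
    embM !![Real.exp y.1, 0; 0, Real.exp (-y.1)] !![Real.exp y.2, 0; 0, Real.exp (-y.2)] := by
  rw [mat_expA]
  unfold embM
  rw [← Matrix.fromBlocks_diagonal]
  congr 1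
  · ext i j; fin_cases i <;> fin_cases j <;> simp
  · ext i j; fin_cases i <;> fin_cases j <;> simp
  
/-- the hyperbolic integer matrix in the first factor -/
def mm : G := ⟨embM !![2, 1; 1, 1] !![1, 0; 0, 1], embM_mem (by norm_num) (by norm_num)⟩

lemma mm_mem : mm ∈ Gam := by
  refine ⟨Matrix.fromBlocks (Matrix.diagonal ![2, 1]) (Matrix.diagonal ![1, 0])
    (Matrix.diagonal ![1, 0]) (Matrix.diagonal ![1, 1]), ?_⟩
  show embM !![2, 1; 1, 1] !![1, 0; 0, 1] = _
  unfold embM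
  rw [Matrix.fromBlocks_map]
  congr 1 <;> (ext i j; fin_cases i <;> fin_cases j <;> simp)

lemma g0_mm : g0 * mm = expA (ell, 0) * g0 := by
  apply G_ext
  rw [mat_mul, mat_mul, mat_g0, mat_expA']
  show embM A1 B1 * embM !![2, 1; 1, 1] !![1, 0; 0, 1] = _
  rw [embM_mul, embM_mul]
  have h := s5_sq
  have hp := s5_pos.ne'
  congr 1
  · ext i j
    fin_cases i <;> fin_cases j <;>
      simp [A1, Matrix.mul_apply, Fin.sum_univ_two, exp_ell, exp_neg_ell, lam] <;> field_simp <;> nlinarith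
  · ext i j
    fin_cases i <;> fin_cases j <;> simp [B1, Matrix.mul_apply, Fin.sum_univ_two]

lemma expA_zpow (y : ℝ × ℝ) (k : ℤ) : expA y ^ k = expA ((k:ℝ) • y) := by
  have hnat : ∀ n : ℕ, expA y ^ n = expA ((n:ℝ) • y) := by
    intro n
    induction n with
    | zero => simp [expA_zero]
    | succ n ih => rw [pow_succ, ih, ← expA_add, Nat.cast_succ, add_smul, one_smul]
  cases k with
  | ofNat n => simpa using hnat n
  | negSucc n =>
    rw [zpow_negSucc, hnat, ← expA_neg]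
    congr 1
    rw [Int.cast_negSucc]
    push_cast
    rw [← neg_smul]

lemma g0_mm_zpow (k : ℤ) : g0 * mm ^ k = expA ((k:ℝ) * ell, 0) * g0 := by
  have h1 : mm = g0⁻¹ * expA (ell, 0) * (g0⁻¹)⁻¹ := by
    rw [inv_inv, mul_assoc, ← g0_mm, inv_mul_cancel_left]
  have h2 : mm ^ k = g0⁻¹ * expA (ell, 0) ^ k * (g0⁻¹)⁻¹ := by
    conv_lhs => rw [h1]
    rw [conj_zpow]
  rw [h2, expA_zpow, inv_inv, ← mul_assoc, ← mul_assoc, mul_inv_cancel, one_mul]
  congr 2
  ext <;> simp

/-- matrices in the group with entries bounded by `R` -/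
def CR (R : ℝ) : Set G := {g | ∀ i j, |mat g i j| ≤ R}

lemma continuous_mat : Continuous mat := continuous_subtype_val

lemma isCompact_CR (R : ℝ) : IsCompact (CR R) := by
  rw [Subtype.isCompact_iff]
  have h1 : (Subtype.val '' (CR R) : Set (Matrix (Fin 2 ⊕ Fin 2) (Fin 2 ⊕ Fin 2) ℝ)) =
      {A | A * Matrix.J (Fin 2) ℝ * A.transpose = Matrix.J (Fin 2) ℝ} ∩
      {A | ∀ i j, A i j ∈ Set.Icc (-R) R} := by
    ext A
    constructor
    · rintro ⟨g, hg, rfl⟩
      refine ⟨SymplecticGroup.mem_iff.mp g.2, fun i j => ?_⟩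
      rw [Set.mem_Icc, ← abs_le]
      exact hg i j
    · rintro ⟨h1, h2⟩
      refine ⟨⟨A, SymplecticGroup.mem_iff.mpr h1⟩, fun i j => ?_, rfl⟩
      have := h2 i j
      rw [Set.mem_Icc, ← abs_le] at this
      exact this
  rw [h1]
  apply IsCompact.inter_left
  · have h2 : {A : Matrix (Fin 2 ⊕ Fin 2) (Fin 2 ⊕ Fin 2) ℝ | ∀ i j, A i j ∈ Set.Icc (-R) R} =
        Set.pi Set.univ (fun _ => Set.pi Set.univ (fun _ => Set.Icc (-R) R)) := by
      ext A
      constructor
      · intro h i _ j _; exact h i j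
      · intro h i j; exact h i (Set.mem_univ _) j (Set.mem_univ _)
    rw [h2]
    exact isCompact_univ_pi (fun _ => isCompact_univ_pi (fun _ => isCompact_Icc))
  · apply isClosed_eq
    · exact (continuous_id.matrix_mul continuous_const).matrix_mul continuous_id.matrix_transpose
    · exact continuous_const

/-- the projection to the space of cosets -/
def proj (g : G) : X := QuotientGroup.mk g

lemma continuous_proj : Continuous proj := continuous_quotient_mk'

lemma proj_mul {g γ : G} (h : γ ∈ Gam) : proj (g * γ) = proj g := by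
  unfold proj
  rw [QuotientGroup.eq]
  have : (g * γ)⁻¹ * g = γ⁻¹ := by group
  rw [this]
  exact Gam.inv_mem h

lemma smul_proj (g h : G) : g • proj h = proj (g * h) := rfl

/-- the point -/
noncomputable def x0 : X := proj g0

lemma embM_bound {A B : Matrix (Fin 2) (Fin 2) ℝ} {R : ℝ} (hR : 0 ≤ R) (hA : ∀ i j, |A i j| ≤ R)
    (hB : ∀ i j, |B i j| ≤ R) : ∀ i j, |embM A B i j| ≤ R := by
  intro i j
  unfold embM
  rcases i with i | i <;> rcases j with j | j <;> fin_cases i <;> fin_cases j <;>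
    simp [hR, hA, hB]

/-- unimodular matrices of consecutive convergents -/
def gamn (n : ℕ) : G := ⟨embM !![1, 0; 0, 1]
    !![-(-1)^n * ((pp n : ℤ) : ℝ), ((pp (n+1) : ℤ) : ℝ); -(-1)^n * ((qq n : ℤ) : ℝ), ((qq (n+1) : ℤ) : ℝ)],
  embM_mem (by norm_num) (by
    have h := detR n
    unfold Pn Q at h
    have h2 : ((-1:ℝ)^n) * (-1)^n = 1 := by rw [← mul_pow]; norm_num
    simp only [Matrix.of_apply, Matrix.cons_val', Matrix.cons_val_zero, Matrix.cons_val_one,
      Matrix.cons_val_fin_one]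
    linear_combination ((-1:ℝ)^n) * h + h2)⟩

lemma gamn_mem (n : ℕ) : gamn n ∈ Gam := by
  refine ⟨Matrix.fromBlocks (Matrix.diagonal ![1, -(-1)^n * pp n]) (Matrix.diagonal ![0, pp (n+1)])
    (Matrix.diagonal ![0, -(-1)^n * qq n]) (Matrix.diagonal ![1, qq (n+1)]), ?_⟩
  show embM !![1, 0; 0, 1] _ = _
  unfold embM
  rw [Matrix.fromBlocks_map]
  congr 1 <;> (ext i j; fin_cases i <;> fin_cases j <;> simp)

/-- entries of `a_s A1` for `0 ≤ s ≤ ell` -/
lemma first_bound {s : ℝ} (h0 : 0 ≤ s) (h1 : s ≤ ell) :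
    ∀ i j, |(!![Real.exp s, 0; 0, Real.exp (-s)] * A1) i j| ≤ 6 := by
  have e1 : Real.exp s ≤ 3 := by
    calc Real.exp s ≤ Real.exp ell := Real.exp_le_exp.mpr h1
      _ = lam := exp_ell
      _ ≤ 3 := lam_le
  have e2 : Real.exp (-s) ≤ 1 := by
    rw [← Real.exp_zero]; exact Real.exp_le_exp.mpr (by linarith)
  have e3 := Real.exp_pos s
  have e4 := Real.exp_pos (-s)
  have h2 := s5_gt
  have h3 := s5_lt
  have f1 : |(1 + s5)/2| ≤ 2 := by rw [abs_le]; constructor <;> linarith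
  have f2 : |(1 - s5)/2/s5| ≤ 1 := by
    rw [abs_div, abs_of_pos s5_pos, div_le_one s5_pos, abs_le]; constructor <;> linarith
  have f3 : |1/s5| ≤ 1 := by
    rw [abs_div, abs_one, abs_of_pos s5_pos, div_le_one s5_pos]; linarith
  intro i j
  fin_cases i <;> fin_cases j
  · have : (!![Real.exp s, 0; 0, Real.exp (-s)] * A1) 0 0 = Real.exp s * ((1+s5)/2) := by
      simp [A1, Matrix.mul_apply, Fin.sum_univ_two]
    show |(!![Real.exp s, 0; 0, Real.exp (-s)] * A1) 0 0| ≤ 6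
    rw [this, abs_mul, abs_of_pos e3]
    nlinarith [abs_nonneg ((1+s5)/2)]
  · have : (!![Real.exp s, 0; 0, Real.exp (-s)] * A1) 0 1 = Real.exp s := by
      simp [A1, Matrix.mul_apply, Fin.sum_univ_two]
    show |(!![Real.exp s, 0; 0, Real.exp (-s)] * A1) 0 1| ≤ 6
    rw [this, abs_of_pos e3]; linarith
  · have : (!![Real.exp s, 0; 0, Real.exp (-s)] * A1) 1 0 = Real.exp (-s) * ((1-s5)/2/s5) := by
      simp [A1, Matrix.mul_apply, Fin.sum_univ_two]
    show |(!![Real.exp s, 0; 0, Real.exp (-s)] * A1) 1 0| ≤ 6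
    rw [this, abs_mul, abs_of_pos e4]
    nlinarith [abs_nonneg ((1-s5)/2/s5)]
  · have : (!![Real.exp s, 0; 0, Real.exp (-s)] * A1) 1 1 = Real.exp (-s) * (1/s5) := by
      simp [A1, Matrix.mul_apply, Fin.sum_univ_two]
    show |(!![Real.exp s, 0; 0, Real.exp (-s)] * A1) 1 1| ≤ 6
    rw [this, abs_mul, abs_of_pos e4]
    nlinarith [abs_nonneg (1/s5)]

/-- entries of `a_t B1 γ_n` for `t = log q_{n+1}` -/
lemma second_bound (n : ℕ) :
    ∀ i j, |(!![Real.exp (Real.log (Q (n+1))), 0; 0, Real.exp (-Real.log (Q (n+1)))] * (B1 *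
      !![-(-1)^n * ((pp n : ℤ) : ℝ), ((pp (n+1) : ℤ) : ℝ); -(-1)^n * ((qq n : ℤ) : ℝ), ((qq (n+1) : ℤ) : ℝ)])) i j| ≤ 6 := by
  have hq := Q_pos (n+1)
  have hq0 := Q_pos n
  have hq2 := Q_pos (n+2)
  have e1 : Real.exp (Real.log (Q (n+1))) = Q (n+1) := Real.exp_log hq
  have e2 : Real.exp (-Real.log (Q (n+1))) = (Q (n+1))⁻¹ := by rw [Real.exp_neg, e1]
  have t1 := th_spec n
  have t2 := th_spec (n+1)
  have m1 := Q_mono (Nat.le_succ n)
  have m2 := Q_mono (Nat.le_succ (n+1))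
  have hs : |(-(-1:ℝ)^n)| = 1 := by rw [abs_neg, abs_pow, abs_neg, abs_one, one_pow]
  intro i j
  rw [e1, e2]
  fin_cases i <;> fin_cases j
  · have : (!![Q (n+1), 0; 0, (Q (n+1))⁻¹] * (B1 *
      !![-(-1)^n * ((pp n : ℤ) : ℝ), ((pp (n+1) : ℤ) : ℝ); -(-1)^n * ((qq n : ℤ) : ℝ), ((qq (n+1) : ℤ) : ℝ)])) 0 0
        = (-(-1)^n) * (Q (n+1) * (Pn n - th * Q n)) := by
      simp [B1, Matrix.mul_apply, Fin.sum_univ_two, Pn, Q]; ring
    show |_| ≤ (6:ℝ)
    erw [this]
    rw [abs_mul, hs, one_mul, abs_mul, abs_of_pos hq]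
    calc Q (n+1) * |Pn n - th * Q n| ≤ Q (n+1) * (2 / Q (n+1)) := mul_le_mul_of_nonneg_left t1 hq.le
      _ = 2 := by field_simp
      _ ≤ 6 := by norm_num
  · have : (!![Q (n+1), 0; 0, (Q (n+1))⁻¹] * (B1 *
      !![-(-1)^n * ((pp n : ℤ) : ℝ), ((pp (n+1) : ℤ) : ℝ); -(-1)^n * ((qq n : ℤ) : ℝ), ((qq (n+1) : ℤ) : ℝ)])) 0 1
        = (Q (n+1) * (Pn (n+1) - th * Q (n+1))) := by
      simp [B1, Matrix.mul_apply, Fin.sum_univ_two, Pn, Q]; left; ring
    show |_| ≤ (6:ℝ)
    erw [this]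
    rw [abs_mul, abs_of_pos hq]
    calc Q (n+1) * |Pn (n+1) - th * Q (n+1)| ≤ Q (n+2) * (2 / Q (n+2)) :=
          mul_le_mul m2 t2 (abs_nonneg _) hq2.le
      _ = 2 := by field_simp
      _ ≤ 6 := by norm_num
  · have : (!![Q (n+1), 0; 0, (Q (n+1))⁻¹] * (B1 *
      !![-(-1)^n * ((pp n : ℤ) : ℝ), ((pp (n+1) : ℤ) : ℝ); -(-1)^n * ((qq n : ℤ) : ℝ), ((qq (n+1) : ℤ) : ℝ)])) 1 0
        = (-(-1)^n) * ((Q (n+1))⁻¹ * Q n) := by
      rw [show (-(-1:ℝ)^n) * ((Q (n+1))⁻¹ * Q n) = (Q (n+1))⁻¹ * (-(-1)^n * Q n) by ring]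
      simp [B1, Matrix.mul_apply, Fin.sum_univ_two, Q]
    show |_| ≤ (6:ℝ)
    erw [this]
    rw [abs_mul, hs, one_mul, abs_of_pos (by positivity), inv_mul_eq_div]
    have : Q n / Q (n+1) ≤ 1 := (div_le_one hq).mpr m1
    linarith
  · have : (!![Q (n+1), 0; 0, (Q (n+1))⁻¹] * (B1 *
      !![-(-1)^n * ((pp n : ℤ) : ℝ), ((pp (n+1) : ℤ) : ℝ); -(-1)^n * ((qq n : ℤ) : ℝ), ((qq (n+1) : ℤ) : ℝ)])) 1 1
        = ((Q (n+1))⁻¹ * Q (n+1)) := by
      simp [B1, Matrix.mul_apply, Fin.sum_univ_two, Q]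
    show |_| ≤ (6:ℝ)
    erw [this]
    rw [inv_mul_cancel₀ hq.ne']; norm_num

/-- reduction in the first coordinate -/
lemma reduce_first (y1 y2 : ℝ) : ∃ s, 0 ≤ s ∧ s ≤ ell ∧ expA (y1, y2) • x0 = expA (s, y2) • x0 := by
  refine ⟨y1 - ⌊y1 / ell⌋ * ell, ?_, ?_, ?_⟩
  · have := Int.floor_le (y1/ell)
    have h2 := ell_pos
    have : (⌊y1/ell⌋ : ℝ) * ell ≤ y1 := by
      calc (⌊y1/ell⌋ : ℝ) * ell ≤ (y1/ell) * ell := mul_le_mul_of_nonneg_right this h2.le
        _ = y1 := by field_simp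
    linarith
  · have := (Int.lt_floor_add_one (y1/ell)).le
    have h2 := ell_pos
    have : y1 ≤ (⌊y1/ell⌋ + 1 : ℝ) * ell := by
      calc y1 = (y1/ell) * ell := by field_simp
        _ ≤ _ := mul_le_mul_of_nonneg_right this h2.le
    linarith
  · unfold x0
    rw [smul_proj, smul_proj]
    have h1 : expA (y1, y2) * g0 = (expA (y1 - ⌊y1 / ell⌋ * ell, y2) * g0) * mm ^ ⌊y1/ell⌋ := by
      rw [mul_assoc, g0_mm_zpow, ← mul_assoc, ← expA_add]
      congr 2
      ext <;> simp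
    rw [h1, proj_mul (Gam.zpow_mem mm_mem _)]

lemma recur_cusp (n : ℕ) (y1 : ℝ) : expA (y1, Real.log (Q (n+1))) • x0 ∈ proj '' (CR 6) := by
  obtain ⟨s, hs0, hs1, hs⟩ := reduce_first y1 (Real.log (Q (n+1)))
  rw [hs]
  refine ⟨expA (s, Real.log (Q (n+1))) * g0 * gamn n, ?_, ?_⟩
  · intro i j
    rw [mat_mul, mat_mul, mat_expA', mat_g0]
    show |(embM _ _ * embM A1 B1 * embM !![1, 0; 0, 1] _) i j| ≤ 6
    rw [embM_mul, embM_mul]
    apply embM_bound (by norm_num)
    · intro i j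
      have h1 : (!![1, 0; 0, 1] : Matrix (Fin 2) (Fin 2) ℝ) = 1 := Matrix.one_fin_two.symm
      rw [h1, Matrix.mul_one]
      exact first_bound hs0 hs1 i j
    · intro i j
      rw [Matrix.mul_assoc]
      exact second_bound n i j
  · rw [proj_mul (gamn_mem n)]; rfl

lemma recur_flat (y1 : ℝ) : expA (y1, 0) • x0 ∈ proj '' (CR 6) := by
  obtain ⟨s, hs0, hs1, hs⟩ := reduce_first y1 0
  rw [hs]
  refine ⟨expA (s, 0) * g0, ?_, rfl⟩
  intro i j
  rw [mat_mul, mat_expA', mat_g0, embM_mul]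
  apply embM_bound (by norm_num)
  · exact first_bound hs0 hs1
  · intro i j
    have := abs_th
    fin_cases i <;> fin_cases j <;> simp [B1, Matrix.mul_apply, Fin.sum_univ_two] <;> linarith

/-- no one-parameter orbit of `x0` is divergent -/
theorem not_divergent (Y : ℝ × ℝ) (hY : Y ≠ 0) : ¬ Divergent (oneParam Y) x0 := by
  intro hdiv
  have hK := hdiv (proj '' (CR 6)) ((isCompact_CR 6).image continuous_proj)
  by_cases h2 : Y.2 = 0
  · have h1 : Y.1 ≠ 0 := fun h => hY (Prod.ext h h2)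
    have hc : Continuous (fun d : G => mat d (Sum.inl 0) (Sum.inl 0)) :=
      continuous_mat.matrix_elem _ _
    obtain ⟨B, hB⟩ := (hK.image hc).bddAbove
    have hall : ∀ s : ℝ, Real.exp s ≤ B := by
      intro s
      apply hB
      refine ⟨expA ((s / Y.1) • Y), ⟨⟨s / Y.1, rfl⟩, ?_⟩, ?_⟩
      · have : (s / Y.1) • Y = (s, 0) := by
          ext
          · simp; field_simp
          · simp [h2]
        rw [this]
        exact recur_flat s
      · simp only [mat_expA, Matrix.diagonal_apply_eq, Sum.elim_inl, Matrix.cons_val_zero]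
        congr 1
        simp; field_simp
    have h3 := hall (|B|)
    have h4 := Real.add_one_le_exp |B|
    have h5 := le_abs_self B
    linarith
  · have hc : Continuous (fun d : G => mat d (Sum.inl 1) (Sum.inl 1)) :=
      continuous_mat.matrix_elem _ _
    obtain ⟨B, hB⟩ := (hK.image hc).bddAbove
    have hall : ∀ n : ℕ, Q (n+1) ≤ B := by
      intro n
      apply hB
      refine ⟨expA ((Real.log (Q (n+1)) / Y.2) • Y), ⟨⟨_, rfl⟩, ?_⟩, ?_⟩
      · have : (Real.log (Q (n+1)) / Y.2) • Y = (Real.log (Q (n+1)) / Y.2 * Y.1, Real.log (Q (n+1))) := by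
          ext
          · simp
          · simp; field_simp
        rw [this]
        exact recur_cusp n _
      · simp only [mat_expA, Matrix.diagonal_apply_eq, Sum.elim_inl, Matrix.cons_val_one, Matrix.cons_val_fin_one]
        have : ((Real.log (Q (n+1)) / Y.2) • Y).2 = Real.log (Q (n+1)) := by simp; field_simp
        rw [this, Real.exp_log (Q_pos _)]
    obtain ⟨N, hN⟩ := pow_unbounded_of_one_lt B (show (1:ℝ) < 3 by norm_num)
    have h3 := hall N
    have h4 := Q_ge (N+1)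
    have h5 : (3:ℝ)^N ≤ 3^((N+1)^2) := pow_le_pow_right₀ (by norm_num) (by nlinarith)
    linarith

/-- elements whose inverse has entries less than `M` -/
def WM (M : ℝ) : Set G := {g | ∀ i j, |mat g⁻¹ i j| < M}

lemma isOpen_WM (M : ℝ) : IsOpen (WM M) := by
  have h1 : WM M = ⋂ i, ⋂ j, {g : G | |mat g⁻¹ i j| < M} := by
    ext g; simp [WM, Set.mem_iInter]
  rw [h1]
  refine isOpen_iInter_of_finite (fun i => isOpen_iInter_of_finite (fun j => ?_))
  refine isOpen_lt ?_ continuous_const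
  refine continuous_abs.comp ?_
  have : Continuous (fun g : G => mat g⁻¹) := by
    have h2 : (fun g : G => mat g⁻¹) = fun g : G => (-Matrix.J (Fin 2) ℝ) * (mat g).transpose * Matrix.J (Fin 2) ℝ := by
      ext g; rw [mat_inv]
    rw [h2]
    exact (continuous_const.matrix_mul continuous_mat.matrix_transpose).matrix_mul continuous_const
  exact this.matrix_elem i j

lemma compact_subset {K : Set X} (hK : IsCompact K) : ∃ n : ℕ, K ⊆ proj '' (WM (n+1)) := by
  have hopen : ∀ n : ℕ, IsOpen (proj '' (WM (n+1))) := fun n =>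
    QuotientGroup.isOpenMap_coe _ (isOpen_WM _)
  have hcov : K ⊆ ⋃ n : ℕ, proj '' (WM (n+1)) := by
    intro y _
    obtain ⟨g, rfl⟩ := QuotientGroup.mk_surjective y
    rw [Set.mem_iUnion]
    obtain ⟨n, hn⟩ := exists_nat_ge (∑ i, ∑ j, |mat g⁻¹ i j|)
    refine ⟨n, g, fun i j => ?_, rfl⟩
    have h1 : |mat g⁻¹ i j| ≤ ∑ j, |mat g⁻¹ i j| :=
      Finset.single_le_sum (f := fun j => |mat g⁻¹ i j|) (fun _ _ => abs_nonneg _) (Finset.mem_univ j)
    have h2 : ∑ j, |mat g⁻¹ i j| ≤ ∑ i, ∑ j, |mat g⁻¹ i j| :=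
      Finset.single_le_sum (f := fun i => ∑ j, |mat g⁻¹ i j|)
        (fun _ _ => Finset.sum_nonneg (fun _ _ => abs_nonneg _)) (Finset.mem_univ i)
    linarith
  have hmono : Monotone (fun n : ℕ => proj '' (WM (n+1))) := by
    intro m n hmn
    apply Set.image_mono
    intro g hg i j
    refine (hg i j).trans_le ?_
    have : (m:ℝ) ≤ n := by exact_mod_cast hmn
    linarith
  exact hK.elim_directed_cover _ hopen hcov (directed_of_isDirected_le hmono)

lemma systole_WM {M : ℝ} (hM : 0 < M) {h : G} (hh : h ∈ WM M) {w : Fin 2 ⊕ Fin 2 → ℤ} (hw : w ≠ 0) :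
    ∃ j, 1/(4*M) ≤ |((mat h).mulVec (fun i => (w i : ℝ))) j| := by
  by_contra hcon
  push Not at hcon
  obtain ⟨i, hi⟩ : ∃ i, w i ≠ 0 := by
    by_contra h0
    push Not at h0
    exact hw (funext h0)
  set u := (mat h).mulVec (fun i => (w i : ℝ)) with hu
  have h1 : (mat h⁻¹).mulVec u = fun i => (w i : ℝ) := by
    rw [hu, Matrix.mulVec_mulVec, ← mat_mul, inv_mul_cancel, mat_one, Matrix.one_mulVec]
  have h2 : |(w i : ℝ)| ≤ ∑ j, |mat h⁻¹ i j| * |u j| := by
    rw [← congrFun h1 i]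
    unfold Matrix.mulVec dotProduct
    refine (Finset.abs_sum_le_sum_abs _ _).trans (le_of_eq ?_)
    exact Finset.sum_congr rfl (fun j _ => abs_mul _ _)
  have h3 : ∑ j, |mat h⁻¹ i j| * |u j| < ∑ _j : Fin 2 ⊕ Fin 2, M * (1/(4*M)) := by
    apply Finset.sum_lt_sum_of_nonempty Finset.univ_nonempty
    intro j _
    exact mul_lt_mul'' (hh i j) (hcon j) (abs_nonneg _) (abs_nonneg _)
  have h4 : ∑ _j : Fin 2 ⊕ Fin 2, M * (1/(4*M)) = 1 := by
    rw [Finset.sum_const, Finset.card_univ, Fintype.card_sum, Fintype.card_fin]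
    simp only [nsmul_eq_mul]
    push_cast
    field_simp
  have h5 : (1:ℝ) ≤ |(w i : ℝ)| := by
    rw [← Int.cast_abs]
    exact_mod_cast Int.one_le_abs hi
  linarith

lemma systole {K : Set X} (hK : IsCompact K) : ∃ ε > 0, ∀ g : G, proj g ∈ K →
    ∀ w : Fin 2 ⊕ Fin 2 → ℤ, w ≠ 0 → ∃ j, ε ≤ |((mat g).mulVec (fun i => (w i : ℝ))) j| := by
  obtain ⟨n, hn⟩ := compact_subset hK
  have hpos : (0:ℝ) < n + 1 := by positivity
  refine ⟨1/(4*(n+1)), by positivity, fun g hg w hw => ?_⟩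
  obtain ⟨h, hh, hgh⟩ := hn hg
  have hmem : g⁻¹ * h ∈ Gam := by
    rw [← QuotientGroup.eq]
    exact hgh.symm
  obtain ⟨A, hA⟩ := Gam.inv_mem hmem
  obtain ⟨B, hB⟩ := hmem
  -- transport the vector
  have e1 : (mat ((g⁻¹ * h)⁻¹)).mulVec (fun i => (w i : ℝ)) = fun i => ((A.mulVec w i : ℤ) : ℝ) := by
    rw [hA]
    ext i
    unfold Matrix.mulVec dotProduct
    push_cast
    rfl
  have e2 : (mat h).mulVec (fun i => ((A.mulVec w i : ℤ) : ℝ)) = (mat g).mulVec (fun i => (w i : ℝ)) := by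
    rw [← e1, Matrix.mulVec_mulVec, ← mat_mul]
    congr 2
    group
  have hne : A.mulVec w ≠ 0 := by
    intro h0
    apply hw
    have h1 : (mat (g⁻¹ * h)).mulVec ((mat ((g⁻¹ * h)⁻¹)).mulVec (fun i => (w i : ℝ))) = fun i => (w i : ℝ) := by
      rw [Matrix.mulVec_mulVec, ← mat_mul, mul_inv_cancel, mat_one, Matrix.one_mulVec]
    rw [e1, h0] at h1
    ext i
    have h2 := congrFun h1 i
    have h3 : (fun i : Fin 2 ⊕ Fin 2 => (((0 : Fin 2 ⊕ Fin 2 → ℤ) i : ℤ) : ℝ)) = 0 := by ext i; simp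
    rw [h3, Matrix.mulVec_zero] at h2
    have h4 : (0:ℝ) = w i := h2
    exact_mod_cast h4.symm
  obtain ⟨j, hj⟩ := systole_WM hpos hh hne
  rw [e2] at hj
  exact ⟨j, hj⟩

lemma thick_cond {K : Set X} (hK : IsCompact K) : ∃ ε > 0, ε ≤ 1 ∧ ∀ v : ℝ × ℝ, expA v • x0 ∈ K →
    ∀ p q : ℤ, (p ≠ 0 ∨ q ≠ 0) → ε ≤ Real.exp v.2 * |(p:ℝ) - th * q| ∨ ε ≤ Real.exp (-v.2) * |(q:ℝ)| := by
  obtain ⟨ε, hε, h⟩ := systole hK
  refine ⟨min ε 1, lt_min hε one_pos, min_le_right _ _, fun v hv p q hpq => ?_⟩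
  have hne : (Sum.elim ![0, p] ![0, q] : Fin 2 ⊕ Fin 2 → ℤ) ≠ 0 := by
    intro h0
    rcases hpq with hp | hq
    · exact hp (congrFun h0 (Sum.inl 1))
    · exact hq (congrFun h0 (Sum.inr 1))
  obtain ⟨j, hj⟩ := h (expA v * g0) hv _ hne
  rw [mat_mul, mat_expA', mat_g0, embM_mul] at hj
  have hmin := min_le_left ε 1
  rcases j with j | j <;> fin_cases j
  · exfalso
    simp [embM, Matrix.mulVec, dotProduct, Matrix.mul_apply, Fin.sum_univ_two, B1] at hj
    linarith
  · left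
    have : (embM (!![Real.exp v.1, 0; 0, Real.exp (-v.1)] * A1)
        (!![Real.exp v.2, 0; 0, Real.exp (-v.2)] * B1)).mulVec
        (fun i => ((Sum.elim ![0, p] ![0, q] : Fin 2 ⊕ Fin 2 → ℤ) i : ℝ)) (Sum.inl 1) =
        Real.exp v.2 * (p - th * q) := by
      simp [embM, Matrix.mulVec, dotProduct, Matrix.mul_apply, Fin.sum_univ_two, B1]; ring
    erw [this] at hj
    rw [abs_mul, abs_of_pos (Real.exp_pos _)] at hj
    linarith
  · exfalso
    simp [embM, Matrix.mulVec, dotProduct, Matrix.mul_apply, Fin.sum_univ_two, B1] at hj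
    linarith
  · right
    have : (embM (!![Real.exp v.1, 0; 0, Real.exp (-v.1)] * A1)
        (!![Real.exp v.2, 0; 0, Real.exp (-v.2)] * B1)).mulVec
        (fun i => ((Sum.elim ![0, p] ![0, q] : Fin 2 ⊕ Fin 2 → ℤ) i : ℝ)) (Sum.inr 1) =
        Real.exp (-v.2) * q := by
      simp [embM, Matrix.mulVec, dotProduct, Matrix.mul_apply, Fin.sum_univ_two, B1]
    erw [this] at hj
    rw [abs_mul, abs_of_pos (Real.exp_pos _)] at hj
    linarith

lemma logQ_ge (n : ℕ) : (n:ℝ)^2 ≤ Real.log (Q n) := by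
  have h1 := Q_ge n
  have h2 : Real.log ((3:ℝ)^(n^2)) ≤ Real.log (Q n) := Real.log_le_log (by positivity) h1
  rw [Real.log_pow] at h2
  have h3 : (1:ℝ) ≤ Real.log 3 := by
    rw [Real.le_log_iff_exp_le (by norm_num)]
    exact (Real.exp_one_lt_d9.trans (by norm_num)).le
  have h4 : (n:ℝ)^2 * 1 ≤ ((n^2 : ℕ) : ℝ) * Real.log 3 := by
    push_cast
    exact mul_le_mul_of_nonneg_left h3 (by positivity)
  linarith

/-- thick times are near some `log Q n` -/
lemma thick_near {K : Set X} (hK : IsCompact K) : ∃ L : ℝ, 0 ≤ L ∧ ∀ v : ℝ × ℝ, expA v • x0 ∈ K →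
    ∃ n : ℕ, |v.2 - Real.log (Q n)| ≤ L := by
  classical
  obtain ⟨ε, hε, hε1, h⟩ := thick_cond hK
  have hLpos : 0 ≤ Real.log (2/ε) := Real.log_nonneg (by rw [le_div_iff₀ hε]; linarith)
  refine ⟨Real.log (2/ε), hLpos, fun v hv => ?_⟩
  set L := Real.log (2/ε) with hL
  have hexpL : Real.exp L = 2/ε := Real.exp_log (by positivity)
  -- lower bound from the vector (1,0)
  have hlow : -L ≤ v.2 := by
    rcases h v hv 1 0 (Or.inl one_ne_zero) with h1 | h1
    · simp at h1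
      by_contra hlt
      push Not at hlt
      have : Real.exp v.2 < Real.exp (-L) := Real.exp_lt_exp.mpr hlt
      rw [Real.exp_neg, hexpL, inv_div] at this
      linarith
    · simp at h1; linarith
  have hexists : ∃ n : ℕ, v.2 ≤ Real.log (Q n) + L := by
    obtain ⟨n, hn⟩ := exists_nat_ge |v.2|
    refine ⟨n, ?_⟩
    have h1 := logQ_ge n
    have h2 := le_abs_self v.2
    have h3 := abs_nonneg v.2
    rcases Nat.eq_zero_or_pos n with h0 | h0
    · subst h0
      have h4 : |v.2| ≤ 0 := by simpa using hn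
      simp at h1
      linarith
    · have h5 : (1:ℝ) ≤ n := by exact_mod_cast h0
      nlinarith
  obtain ⟨n, hn, hmin⟩ : ∃ n : ℕ, v.2 ≤ Real.log (Q n) + L ∧ ∀ m < n, ¬ v.2 ≤ Real.log (Q m) + L :=
    ⟨Nat.find hexists, Nat.find_spec hexists, fun m hm => Nat.find_min hexists hm⟩
  refine ⟨n, ?_⟩
  rw [abs_le]
  refine ⟨?_, by linarith⟩
  cases n with
  | zero =>
    have : Q 0 = 1 := by norm_num [Q, qq]
    rw [this, Real.log_one]; linarith
  | succ m =>
    have h1 := hmin m (Nat.lt_succ_self m)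
    push Not at h1
    have hqm := Q_pos m
    have hqm1 := Q_pos (m+1)
    rcases h v hv (pp m) (qq m) (Or.inr (qq_pos m).1.ne') with h2 | h2
    · -- first coordinate large
      have h3 : Real.exp v.2 * |(pp m : ℝ) - th * qq m| ≤ Real.exp v.2 * (2 / Q (m+1)) :=
        mul_le_mul_of_nonneg_left (th_spec m) (Real.exp_pos _).le
      have h4 : ε ≤ Real.exp v.2 * (2 / Q (m+1)) := h2.trans h3
      have h5 : Q (m+1) ≤ Real.exp (v.2 + L) := by
        rw [Real.exp_add, hexpL]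
        rw [← mul_div_assoc, le_div_iff₀ hqm1] at h4
        rw [← mul_div_assoc, le_div_iff₀ hε]
        linarith
      have h6 := Real.log_le_log hqm1 h5
      rw [Real.log_exp] at h6
      linarith
    · -- second coordinate large: contradiction
      exfalso
      have h3 : |(qq m : ℝ)| = Q m := by
        unfold Q at *
        exact abs_of_pos hqm
      rw [h3] at h2
      have h4 : Real.exp (-v.2) < Real.exp (-(Real.log (Q m) + L)) := Real.exp_lt_exp.mpr (by linarith)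
      have h5 : Real.exp (-(Real.log (Q m) + L)) = (Q m)⁻¹ * (ε/2) := by
        rw [neg_add, Real.exp_add, Real.exp_neg, Real.exp_log hqm, Real.exp_neg, hexpL, inv_div]
      rw [h5] at h4
      have h6 : Real.exp (-v.2) * Q m < (Q m)⁻¹ * (ε/2) * Q m := mul_lt_mul_of_pos_right h4 hqm
      have h7 : (Q m)⁻¹ * (ε/2) * Q m = ε/2 := by field_simp
      linarith

lemma seminorm_upper (N : Seminorm ℝ (ℝ × ℝ)) : ∃ C > 0, ∀ v, N v ≤ C * ‖v‖ := by
  refine ⟨N (1,0) + N (0,1) + 1, by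
    have := apply_nonneg N (1,0); have := apply_nonneg N (0,1); linarith, fun v => ?_⟩
  have h1 : v = v.1 • ((1:ℝ),(0:ℝ)) + v.2 • ((0:ℝ),(1:ℝ)) := by ext <;> simp
  have h2 : N v ≤ |v.1| * N (1,0) + |v.2| * N (0,1) := by
    calc N v = N (v.1 • ((1:ℝ),(0:ℝ)) + v.2 • ((0:ℝ),(1:ℝ))) := by rw [← h1]
      _ ≤ N (v.1 • ((1:ℝ),(0:ℝ))) + N (v.2 • ((0:ℝ),(1:ℝ))) := map_add_le_add N _ _
      _ = _ := by rw [map_smul_eq_mul, map_smul_eq_mul, Real.norm_eq_abs, Real.norm_eq_abs]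
  have h3 : |v.1| ≤ ‖v‖ := norm_fst_le v
  have h4 : |v.2| ≤ ‖v‖ := norm_snd_le v
  have h5 := apply_nonneg N (1,0)
  have h6 := apply_nonneg N (0,1)
  have h7 := norm_nonneg v
  nlinarith

lemma seminorm_lower (N : Seminorm ℝ (ℝ × ℝ)) (hN : ∀ v, N v = 0 → v = 0) : ∃ c > 0, ∀ v, ‖v‖ ≤ c * N v := by
  obtain ⟨C, hC, hup⟩ := seminorm_upper N
  have hcont : Continuous (fun v => N v) := by
    rw [Metric.continuous_iff]
    intro v ε hε
    refine ⟨ε / C, by positivity, fun w hw => ?_⟩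
    rw [Real.dist_eq]
    have h1 : |N w - N v| ≤ N (w - v) := abs_sub_map_le_sub N w v
    have h2 := hup (w - v)
    rw [dist_eq_norm] at hw
    calc |N w - N v| ≤ C * ‖w - v‖ := h1.trans h2
      _ < C * (ε / C) := mul_lt_mul_of_pos_left hw hC
      _ = ε := by field_simp
  have hsph : (Metric.sphere (0 : ℝ × ℝ) 1).Nonempty := ⟨(1, 0), by simp⟩
  obtain ⟨v0, hv0, hmin⟩ := (isCompact_sphere (0 : ℝ × ℝ) 1).exists_isMinOn hsph hcont.continuousOn
  have hm : 0 < N v0 := by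
    rcases (apply_nonneg N v0).lt_or_eq with h | h
    · exact h
    · exfalso
      have := hN v0 h.symm
      rw [this] at hv0
      simp at hv0
  refine ⟨(N v0)⁻¹, by positivity, fun v => ?_⟩
  rcases eq_or_ne v 0 with h0 | h0
  · subst h0; simp
  · have hn : 0 < ‖v‖ := norm_pos_iff.mpr h0
    have h1 : (‖v‖⁻¹ • v) ∈ Metric.sphere (0 : ℝ × ℝ) 1 := by
      rw [mem_sphere_zero_iff_norm, norm_smul, norm_inv, norm_norm]
      field_simp
    have h2 : N v0 ≤ N (‖v‖⁻¹ • v) := hmin h1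
    rw [map_smul_eq_mul, norm_inv, norm_norm, inv_mul_eq_div, le_div_iff₀ hn] at h2
    rw [inv_mul_eq_div, le_div_iff₀ hm]
    linarith

/-- the main estimate -/
lemma ratio_bound {K : Set X} (hK : IsCompact K) (N : Seminorm ℝ (ℝ × ℝ)) (hN : ∀ v, N v = 0 → v = 0) :
    ∃ D : ℝ, ∀ T : ℝ, 1 ≤ T → (volume {v : ℝ × ℝ | N v ≤ T ∧ expA v • x0 ∈ K}).toReal /
      (volume {v : ℝ × ℝ | N v ≤ T}).toReal ≤ D / Real.sqrt T := by
  obtain ⟨L, hL, hthick⟩ := thick_near hK
  obtain ⟨C, hC, hup⟩ := seminorm_upper N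
  obtain ⟨c, hc, hlow⟩ := seminorm_lower N hN
  refine ⟨(2*c) * (Real.sqrt (c + L) + 1) * (2*L) / ((2/C) * (2/C)), fun T hT => ?_⟩
  have hT0 : 0 < T := by linarith
  -- numerator
  set m : ℕ := ⌊Real.sqrt (c*T + L)⌋₊ + 1 with hm
  have hnum : {v : ℝ × ℝ | N v ≤ T ∧ expA v • x0 ∈ K} ⊆
      Set.Icc (-(c*T)) (c*T) ×ˢ ⋃ n ∈ Finset.range m, Set.Icc (Real.log (Q n) - L) (Real.log (Q n) + L) := by
    rintro v ⟨hv1, hv2⟩
    have hn : ‖v‖ ≤ c * T := (hlow v).trans (mul_le_mul_of_nonneg_left hv1 hc.le)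
    have h1 : |v.1| ≤ c*T := (norm_fst_le v).trans hn
    have h2 : |v.2| ≤ c*T := (norm_snd_le v).trans hn
    obtain ⟨n, hn2⟩ := hthick v hv2
    rw [abs_le] at h1 h2 hn2
    refine ⟨h1, ?_⟩
    rw [Set.mem_iUnion₂]
    refine ⟨n, ?_, ?_⟩
    · rw [Finset.mem_range, hm, Nat.lt_succ_iff, Nat.le_floor_iff (Real.sqrt_nonneg _)]
      apply Real.le_sqrt_of_sq_le
      have := logQ_ge n
      linarith
    · constructor <;> linarith
  have hvolnum : (volume {v : ℝ × ℝ | N v ≤ T ∧ expA v • x0 ∈ K}).toReal ≤ (2*(c*T)) * (m * (2*L)) := by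
    have h1 : volume {v : ℝ × ℝ | N v ≤ T ∧ expA v • x0 ∈ K} ≤
        ENNReal.ofReal (2*(c*T)) * (m * ENNReal.ofReal (2*L)) := by
      refine (measure_mono hnum).trans ?_
      rw [Measure.volume_eq_prod, Measure.prod_prod]
      refine mul_le_mul' ?_ ?_
      · rw [Real.volume_Icc]; apply le_of_eq; congr 1; ring
      · refine (measure_biUnion_finset_le _ _).trans ?_
        have h2 : ∀ n ∈ Finset.range m, volume (Set.Icc (Real.log (Q n) - L) (Real.log (Q n) + L)) =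
            ENNReal.ofReal (2*L) := by
          intro n _
          rw [Real.volume_Icc]; congr 1; ring
        rw [Finset.sum_congr rfl h2, Finset.sum_const, Finset.card_range, nsmul_eq_mul]
    have h3 : ENNReal.ofReal (2*(c*T)) * (m * ENNReal.ofReal (2*L)) ≠ ⊤ := by
      refine ENNReal.mul_ne_top ENNReal.ofReal_ne_top (ENNReal.mul_ne_top (ENNReal.natCast_ne_top m) ENNReal.ofReal_ne_top)
    refine (ENNReal.toReal_mono h3 h1).trans (le_of_eq ?_)
    rw [ENNReal.toReal_mul, ENNReal.toReal_mul, ENNReal.toReal_ofReal (by positivity),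
      ENNReal.toReal_ofReal (by positivity), ENNReal.toReal_natCast]
  -- denominator
  have hden : Set.Icc (-(T/C)) (T/C) ×ˢ Set.Icc (-(T/C)) (T/C) ⊆ {v : ℝ × ℝ | N v ≤ T} := by
    rintro v ⟨hv1, hv2⟩
    have h1 : ‖v‖ ≤ T/C := by
      rw [Prod.norm_def]
      exact max_le (abs_le.mpr hv1) (abs_le.mpr hv2)
    calc N v ≤ C * ‖v‖ := hup v
      _ ≤ C * (T/C) := mul_le_mul_of_nonneg_left h1 hC.le
      _ = T := by field_simp
  have hfin : volume {v : ℝ × ℝ | N v ≤ T} ≠ ⊤ := by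
    have h1 : {v : ℝ × ℝ | N v ≤ T} ⊆ Set.Icc (-(c*T)) (c*T) ×ˢ Set.Icc (-(c*T)) (c*T) := by
      intro v hv
      have hn : ‖v‖ ≤ c * T := (hlow v).trans (mul_le_mul_of_nonneg_left hv hc.le)
      exact ⟨abs_le.mp ((norm_fst_le v).trans hn), abs_le.mp ((norm_snd_le v).trans hn)⟩
    refine ne_top_of_le_ne_top ?_ (measure_mono h1)
    rw [Measure.volume_eq_prod, Measure.prod_prod, Real.volume_Icc]
    exact ENNReal.mul_ne_top ENNReal.ofReal_ne_top ENNReal.ofReal_ne_top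
  have hvolden : (2*(T/C)) * (2*(T/C)) ≤ (volume {v : ℝ × ℝ | N v ≤ T}).toReal := by
    have h1 := ENNReal.toReal_mono hfin (measure_mono hden)
    rw [Measure.volume_eq_prod, Measure.prod_prod, Real.volume_Icc, ENNReal.toReal_mul,
      ENNReal.toReal_ofReal (by have : 0 < T/C := by positivity
                                linarith)] at h1
    have h2 : T/C - -(T/C) = 2*(T/C) := by ring
    rw [h2] at h1
    exact h1
  -- size of m
  have hmle : (m:ℝ) ≤ (Real.sqrt (c+L) + 1) * Real.sqrt T := by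
    have h1 : ((⌊Real.sqrt (c*T + L)⌋₊ : ℕ) : ℝ) ≤ Real.sqrt (c*T+L) := Nat.floor_le (Real.sqrt_nonneg _)
    have h2 : Real.sqrt (c*T+L) ≤ Real.sqrt (c+L) * Real.sqrt T := by
      rw [← Real.sqrt_mul (by positivity)]
      apply Real.sqrt_le_sqrt
      nlinarith
    have h3 : 1 ≤ Real.sqrt T := by
      rw [show (1:ℝ) = Real.sqrt 1 by simp]
      exact Real.sqrt_le_sqrt hT
    rw [hm]; push_cast
    nlinarith
  have hsq : Real.sqrt T * Real.sqrt T = T := Real.mul_self_sqrt hT0.le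
  have hsp : 0 < Real.sqrt T := Real.sqrt_pos.mpr hT0
  have hdpos : 0 < (2*(T/C)) * (2*(T/C)) := by positivity
  calc (volume {v : ℝ × ℝ | N v ≤ T ∧ expA v • x0 ∈ K}).toReal / (volume {v : ℝ × ℝ | N v ≤ T}).toReal
      ≤ ((2*(c*T)) * (m * (2*L))) / ((2*(T/C)) * (2*(T/C))) := by
        apply div_le_div₀ (by positivity) hvolnum hdpos hvolden
    _ ≤ ((2*(c*T)) * (((Real.sqrt (c+L) + 1) * Real.sqrt T) * (2*L))) / ((2*(T/C)) * (2*(T/C))) := by
        apply div_le_div_of_nonneg_right _ hdpos.le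
        apply mul_le_mul_of_nonneg_left _ (by positivity)
        exact mul_le_mul_of_nonneg_right hmle (by positivity)
    _ = (2*c) * (Real.sqrt (c + L) + 1) * (2*L) / ((2/C) * (2/C)) / Real.sqrt T := by
        rw [div_eq_div_iff hdpos.ne' hsp.ne']
        have h5 : (2*(T/C)) * (2*(T/C)) = ((2/C)*(2/C)) * (Real.sqrt T * Real.sqrt T * (Real.sqrt T * Real.sqrt T)) := by
          rw [hsq]; ring
        rw [h5]
        have h6 : (2*(c*T)) = 2*c*(Real.sqrt T * Real.sqrt T) := by rw [hsq]; ring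
        rw [h6]
        field_simp

/-- sanity check: the image of `expA` is exactly the group of diagonal matrices with positive
entries in `Sp(4,ℝ)` -/
theorem range_expA (g : G) : (∃ y, expA y = g) ↔
    (∀ i j, i ≠ j → mat g i j = 0) ∧ ∀ i, 0 < mat g i i := by
  constructor
  · rintro ⟨y, rfl⟩
    refine ⟨fun i j hij => by rw [mat_expA, Matrix.diagonal_apply_ne _ hij], fun i => ?_⟩
    rw [mat_expA, Matrix.diagonal_apply_eq]
    rcases i with i | i <;> fin_cases i <;> simp [Real.exp_pos]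
  · rintro ⟨h1, h2⟩
    have hm : mat g = Matrix.diagonal (fun i => mat g i i) := by
      ext i j
      by_cases hij : i = j
      · subst hij; rw [Matrix.diagonal_apply_eq]
      · rw [Matrix.diagonal_apply_ne _ hij, h1 i j hij]
    have hs := SymplecticGroup.mem_iff.mp g.2
    have key : ∀ i : Fin 2, mat g (Sum.inl i) (Sum.inl i) * mat g (Sum.inr i) (Sum.inr i) = 1 := by
      intro i
      have h3 : mat g * Matrix.J (Fin 2) ℝ * (mat g).transpose = Matrix.J (Fin 2) ℝ := hs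
      rw [hm, Matrix.diagonal_transpose] at h3
      have h4 := congrFun (congrFun h3 (Sum.inr i)) (Sum.inl i)
      rw [Matrix.mul_diagonal, Matrix.diagonal_mul] at h4
      simp [Matrix.J, Matrix.fromBlocks] at h4
      linarith
    refine ⟨(Real.log (mat g (Sum.inl 0) (Sum.inl 0)), Real.log (mat g (Sum.inl 1) (Sum.inl 1))), ?_⟩
    apply G_ext
    rw [hm, mat_expA]
    congr 1
    ext i
    rcases i with i | i <;> fin_cases i
    · simp [Real.exp_log (h2 (Sum.inl 0))]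
    · simp [Real.exp_log (h2 (Sum.inl 1))]
    · have h3 := key 0
      have h4 := h2 (Sum.inl 0)
      simp only [Sum.elim_inr, Real.exp_neg]
      simp
      field_simp
      rw [Real.exp_log h4]
      linarith
    · have h3 := key 1
      have h4 := h2 (Sum.inl 1)
      simp only [Sum.elim_inr, Real.exp_neg]
      simp
      field_simp
      rw [Real.exp_log h4]
      linarith

/-- A point of `Sp(4,ℝ)/Sp(4,ℤ)` none of whose one-parameter diagonal orbits is divergent, although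
the full diagonal orbit spends asymptotically zero proportion of its time in every compact set. -/
theorem result : ∃ x : X,
    (∀ Y : ℝ × ℝ, Y ≠ 0 → ¬ Divergent (oneParam Y) x) ∧
    ∀ N : Seminorm ℝ (ℝ × ℝ), (∀ v, N v = 0 → v = 0) → ∀ K : Set X, IsCompact K →
      Tendsto (fun T : ℝ => (volume {v : ℝ × ℝ | N v ≤ T ∧ expA v • x ∈ K}).toReal /
        (volume {v : ℝ × ℝ | N v ≤ T}).toReal) atTop (𝓝 0) := by
  refine ⟨x0, not_divergent, fun N hN K hK => ?_⟩
  obtain ⟨D, hD⟩ := ratio_bound hK N hN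
  have h1 : Tendsto (fun T : ℝ => D / Real.sqrt T) atTop (𝓝 0) :=
    tendsto_const_nhds.div_atTop Real.tendsto_sqrt_atTop
  refine squeeze_zero' (Eventually.of_forall (fun T => by positivity)) ?_ h1
  filter_upwards [eventually_ge_atTop (1:ℝ)] with T hT
  exact hD T hT

end Pool.Agent.Results.MP_f4a5b0_an.SpFour
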